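import Pool.Agent.Helper9.QP.Defs
import Pool.Agent.Helper67.CQ.Z2

/-!
# Pencils of quartics: a common invariant direction is rational over the finite field
-/

set_option autoImplicit false

namespace Pool.Agent.Helper79.QP

open Pool.Agent.Helper29.CQ Pool.Agent.Helper9.QP

export Pool.Agent.Helper9.QP (InvQ)

section

variable {K : Type} [Field K]

theorem Inv.add {c : ℕ → ℕ → K} {v w : Fin 3 → K} (hv : Inv c v) (hw : Inv c w) :
    Inv c (v + w) := by
  intro R _ _ x y z t
  have h1 := hv R (x + t * algebraMap K R (w 0)) (y + t * algebraMap K R (w 1))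
    (z + t * algebraMap K R (w 2)) t
  rw [hw R x y z t] at h1
  rw [← h1]
  simp only [Pi.add_apply, map_add]
  congr 1 <;> ring

theorem Inv.smul {c : ℕ → ℕ → K} {v : Fin 3 → K} (hv : Inv c v) (a : K) : Inv c (a • v) := by
  intro R _ _ x y z t
  have h1 := hv R x y z (t * algebraMap K R a)
  rw [← h1]
  simp only [Pi.smul_apply, smul_eq_mul, map_mul]
  congr 1 <;> ring

theorem InvQ.add {q : Fin 6 → K} {v w : Fin 3 → K} (hv : InvQ q v) (hw : InvQ q w) :
    InvQ q (v + w) := by
  intro R _ _ x y z t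
  have h1 := hv R (x + t * algebraMap K R (w 0)) (y + t * algebraMap K R (w 1))
    (z + t * algebraMap K R (w 2)) t
  rw [hw R x y z t] at h1
  rw [← h1]
  simp only [Pi.add_apply, map_add]
  congr 1 <;> ring

theorem InvQ.smul {q : Fin 6 → K} {v : Fin 3 → K} (hv : InvQ q v) (a : K) : InvQ q (a • v) := by
  intro R _ _ x y z t
  have h1 := hv R x y z (t * algebraMap K R a)
  rw [← h1]
  simp only [Pi.smul_apply, smul_eq_mul, map_mul]
  congr 1 <;> ring

end

section

variable {k K : Type} [Field k] [Field K] [Algebra k K]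

theorem Inv.frob [Fintype k] {c : ℕ → ℕ → k} {v : Fin 3 → K}
    (hv : Inv (fun i j => algebraMap k K (c i j)) v) :
    Inv (fun i j => algebraMap k K (c i j)) fun i => v i ^ Fintype.card k := by
  intro R _ _ x y z t
  have h1 := @hv R _ ((algebraMap K R).comp
    (FiniteField.frobeniusAlgHom k K : K →ₐ[k] K).toRingHom).toAlgebra x y z t
  have h2 : ∀ a : k, (FiniteField.frobeniusAlgHom k K) (algebraMap k K a) = algebraMap k K a :=
    fun a => AlgHom.commutes _ a
  simpa [F4, RingHom.algebraMap_toAlgebra, h2] using h1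

theorem InvQ.frob [Fintype k] {q : Fin 6 → k} {v : Fin 3 → K}
    (hv : InvQ (fun i => algebraMap k K (q i)) v) :
    InvQ (fun i => algebraMap k K (q i)) fun i => v i ^ Fintype.card k := by
  intro R _ _ x y z t
  have h1 := @hv R _ ((algebraMap K R).comp
    (FiniteField.frobeniusAlgHom k K : K →ₐ[k] K).toRingHom).toAlgebra x y z t
  have h2 : ∀ a : k, (FiniteField.frobeniusAlgHom k K) (algebraMap k K a) = algebraMap k K a :=
    fun a => AlgHom.commutes _ a
  simpa [qf, RingHom.algebraMap_toAlgebra, h2] using h1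

theorem Inv.descend {c : ℕ → ℕ → k} {u : Fin 3 → k}
    (h : Inv (fun i j => algebraMap k K (c i j)) fun i => algebraMap k K (u i)) : Inv c u := by
  intro R _ _ x y z t
  let X : Fin 4 → MvPolynomial (Fin 4) k := fun i => MvPolynomial.X i
  have h1 : F4 c (X 0 + X 3 * MvPolynomial.C (u 0)) (X 1 + X 3 * MvPolynomial.C (u 1))
      (X 2 + X 3 * MvPolynomial.C (u 2)) = F4 c (X 0) (X 1) (X 2) := by
    apply MvPolynomial.map_injective (σ := Fin 4) (algebraMap k K) (algebraMap k K).injective
    have h2 := h (MvPolynomial (Fin 4) K) (MvPolynomial.X 0) (MvPolynomial.X 1)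
      (MvPolynomial.X 2) (MvPolynomial.X 3)
    simpa [F4, X, MvPolynomial.algebraMap_eq] using h2
  have h3 := congrArg (MvPolynomial.aeval ![x, y, z, t]) h1
  simpa [F4, X] using h3

theorem InvQ.descend {q : Fin 6 → k} {u : Fin 3 → k}
    (h : InvQ (fun i => algebraMap k K (q i)) fun i => algebraMap k K (u i)) : InvQ q u := by
  intro R _ _ x y z t
  let X : Fin 4 → MvPolynomial (Fin 4) k := fun i => MvPolynomial.X i
  have h1 : qf q (X 0 + X 3 * MvPolynomial.C (u 0)) (X 1 + X 3 * MvPolynomial.C (u 1))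
      (X 2 + X 3 * MvPolynomial.C (u 2)) = qf q (X 0) (X 1) (X 2) := by
    apply MvPolynomial.map_injective (σ := Fin 4) (algebraMap k K) (algebraMap k K).injective
    have h2 := h (MvPolynomial (Fin 4) K) (MvPolynomial.X 0) (MvPolynomial.X 1)
      (MvPolynomial.X 2) (MvPolynomial.X 3)
    simpa [qf, X, MvPolynomial.algebraMap_eq] using h2
  have h3 := congrArg (MvPolynomial.aeval ![x, y, z, t]) h1
  simpa [qf, X] using h3

/-- **A common invariant direction is rational over the finite field.** -/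
theorem desc [Finite k] (c : ℕ → ℕ → k) (q : Fin 6 → k) (v : Fin 3 → K) (hv : v ≠ 0)
    (h : Inv (fun i j => algebraMap k K (c i j)) v)
    (h' : InvQ (fun i => algebraMap k K (q i)) v) :
    ∃ u : Fin 3 → k, u ≠ 0 ∧ Inv c u ∧ InvQ q u := by
  classical
  have := Fintype.ofFinite k
  -- a vector of minimal support
  let S : (Fin 3 → K) → Prop := fun w => w ≠ 0 ∧
    Inv (fun i j => algebraMap k K (c i j)) w ∧ InvQ (fun i => algebraMap k K (q i)) w
  let N : (Fin 3 → K) → ℕ := fun w => (Finset.univ.filter fun i => w i ≠ 0).card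
  obtain ⟨w, hw, hmin⟩ : ∃ w, S w ∧ ∀ w', S w' → N w ≤ N w' := by
    have hex : ∃ n, ∃ w, S w ∧ N w = n := ⟨N v, v, ⟨hv, h, h'⟩, rfl⟩
    obtain ⟨w, hw, hn⟩ := Nat.find_spec hex
    exact ⟨w, hw, fun w' hw' => hn ▸ Nat.find_min' hex ⟨w', hw', rfl⟩⟩
  obtain ⟨hw0, hw1, hw2⟩ := hw
  obtain ⟨i₀, hi₀⟩ : ∃ i, w i ≠ 0 := by
    by_contra hcon
    push Not at hcon
    exact hw0 (funext hcon)
  -- normalise
  set w₁ : Fin 3 → K := (w i₀)⁻¹ • w with hw₁
  have h1 : Inv (fun i j => algebraMap k K (c i j)) w₁ := Inv.smul hw1 _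
  have h2 : InvQ (fun i => algebraMap k K (q i)) w₁ := InvQ.smul hw2 _
  have h3 : w₁ i₀ = 1 := by
    rw [hw₁, Pi.smul_apply, smul_eq_mul, inv_mul_cancel₀ hi₀]
  have hsupp : ∀ i, w i = 0 → w₁ i = 0 := by
    intro i hi
    rw [hw₁, Pi.smul_apply, hi, smul_zero]
  have hcard : Fintype.card k ≠ 0 := Fintype.card_ne_zero
  -- the difference
  set d : Fin 3 → K := (fun i => w₁ i ^ Fintype.card k) + (-1 : K) • w₁ with hd
  have hdi : ∀ i, d i = w₁ i ^ Fintype.card k - w₁ i := by
    intro i
    rw [hd, Pi.add_apply, Pi.smul_apply, smul_eq_mul]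
    ring
  have hd0 : d = 0 := by
    by_contra hne
    have h4 := hmin d ⟨hne, Inv.add (Inv.frob h1) (Inv.smul h1 (-1)), InvQ.add (InvQ.frob h2) (InvQ.smul h2 (-1))⟩
    have h5 : N d < N w := by
      apply Finset.card_lt_card
      rw [Finset.ssubset_iff_of_subset]
      · refine ⟨i₀, ?_, ?_⟩
        · simpa using hi₀
        · simp [hdi, h3]
      · intro i hi
        simp only [Finset.mem_filter, Finset.mem_univ, true_and] at hi ⊢
        intro hwi
        apply hi
        rw [hdi, hsupp i hwi, zero_pow hcard, sub_zero]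
    exact absurd h5 (not_lt.2 h4)
  have h6 : ∀ i, ∃ a : k, algebraMap k K a = w₁ i := by
    intro i
    apply Pool.Agent.Helper67.CQ.root_mem
    have h7 := congrFun hd0 i
    rw [hdi, Pi.zero_apply, sub_eq_zero] at h7
    exact h7
  choose u hu using h6
  have hu' : (fun i => algebraMap k K (u i)) = w₁ := funext hu
  refine ⟨u, ?_, Inv.descend (hu' ▸ h1), InvQ.descend (hu' ▸ h2)⟩
  rintro rfl
  have h7 := hu i₀
  rw [h3, Pi.zero_apply, map_zero] at h7
  exact zero_ne_one h7

end

end Pool.Agent.Helper79.QP
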